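import Pool.Agent.helper91.ADV.SpecX

/-! Project ADV, row PEX: parity of all bits against circuits with arbitrary monotone gates, the exact constant. -/

set_option autoImplicit false

namespace Pool.Agent.ADV

open Finset Pool.Agent.helper38.Neg Pool.Agent.helper55.NT Pool.Agent.LNB

/-- The inputs: the first `min i u` bits are one, bit number `u` is `y`, the others are zero. -/
def PEX_x (n u : ℕ) (y : Bool) (i : ℕ) : Fin n → Bool := fun j =>
  if (j : ℕ) = u then y else decide ((j : ℕ) < i ∧ (j : ℕ) < u)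

/-- The inputs with `y = 0` for `t < N`, with `y = 1` for `N ≤ t`. -/
def PEX_z (n u N t : ℕ) : Fin n → Bool := if t < N then PEX_x n u false t else PEX_x n u true (t - N)

/-- The uniform distribution on the first `N` members of a sequence. -/
noncomputable def PEX_D {n : ℕ} (x : ℕ → (Fin n → Bool)) (N : ℕ) : (Fin n → Bool) → ℝ := fun z =>
  (((range N).filter fun i => x i = z).card : ℝ) / (N : ℝ)

theorem PEX_card {n : ℕ} (x : ℕ → (Fin n → Bool)) (N : ℕ) (P : (Fin n → Bool) → Prop) [DecidablePred P] :
    (∑ z, if P z then ((range N).filter fun i => x i = z).card else 0) =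
      ((range N).filter fun i => P (x i)).card := by
  classical
  rw [Finset.card_filter]
  have h1 : ∀ z, (if P z then ((range N).filter fun i => x i = z).card else 0) =
      ∑ i ∈ range N, if x i = z then (if P (x i) then 1 else 0) else 0 := by
    intro z
    by_cases hz : P z
    · rw [if_pos hz, Finset.card_filter]
      refine Finset.sum_congr rfl fun i _ => ?_
      by_cases h : x i = z
      · rw [if_pos h, if_pos h, if_pos (by rw [h]; exact hz)]
      · rw [if_neg h, if_neg h]
    · rw [if_neg hz]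
      refine (Finset.sum_eq_zero fun i _ => ?_).symm
      by_cases h : x i = z
      · rw [if_pos h, if_neg (by rw [h]; exact hz)]
      · rw [if_neg h]
  rw [Finset.sum_congr rfl fun z _ => h1 z, Finset.sum_comm]
  refine Finset.sum_congr rfl fun i _ => ?_
  rw [Finset.sum_ite_eq univ (x i) (fun _ => if P (x i) then 1 else 0), if_pos (mem_univ _)]

theorem PEX_dist {n : ℕ} (x : ℕ → (Fin n → Bool)) (N : ℕ) (hN : 0 < N) : IsDist (PEX_D x N) := by
  classical
  refine ⟨fun z => div_nonneg (Nat.cast_nonneg _) (Nat.cast_nonneg _), ?_⟩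
  have h := PEX_card x N (fun _ => True)
  simp only [if_true, Finset.filter_true, card_range] at h
  have h2 : (∑ z, PEX_D x N z) = ((∑ z, ((range N).filter fun i => x i = z).card : ℕ) : ℝ) / (N : ℝ) := by
    unfold PEX_D
    rw [← Finset.sum_div]
    push_cast
    rfl
  rw [h2, h]
  exact div_self (by exact_mod_cast hN.ne')

theorem PEX_agr {n : ℕ} (x : ℕ → (Fin n → Bool)) (N : ℕ) (f : (Fin n → Bool) → Prop) (g : (Fin n → Bool) → Bool)
    (Q : ℕ → Prop) [DecidablePred Q] (hQ : ∀ i < N, (g (x i) = true ↔ f (x i)) ↔ Q i) :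
    agr (PEX_D x N) f g = (((range N).filter Q).card : ℝ) / (N : ℝ) := by
  classical
  have h := PEX_card x N (fun z => (g z = true ↔ f z))
  have h0 : ((range N).filter fun i => (g (x i) = true ↔ f (x i))) = (range N).filter Q := by
    refine Finset.filter_congr fun i hi => ?_
    exact hQ i (mem_range.1 hi)
  rw [h0] at h
  rw [← h]
  unfold agr PEX_D
  push_cast
  rw [Finset.sum_div]
  refine Finset.sum_congr rfl fun z _ => ?_
  by_cases hz : (g z = true ↔ f z)
  · rw [if_pos hz, if_pos hz]
  · rw [if_neg hz, if_neg hz, zero_div]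

theorem PEX_wt (n u : ℕ) (hu : u < n) (y : Bool) (i : ℕ) (hi : i ≤ u) :
    wt (PEX_x n u y i) = i + (if y = true then 1 else 0) := by
  unfold wt
  have h0 : (univ.filter fun j : Fin n => (j : ℕ) < i).card = i := by
    rw [Fin.card_filter_val_lt]
    omega
  cases y
  · rw [if_neg (by decide), add_zero]
    have h1 : (univ.filter fun j : Fin n => PEX_x n u false i j = true) =
        univ.filter fun j : Fin n => (j : ℕ) < i := by
      refine Finset.filter_congr fun j _ => ?_
      unfold PEX_x
      by_cases h : (j : ℕ) = u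
      · rw [if_pos h]
        constructor
        · intro h2
          exact absurd h2 (by decide)
        · intro h2
          omega
      · rw [if_neg h]
        constructor
        · intro h2
          exact (of_decide_eq_true h2).1
        · intro h2
          exact decide_eq_true ⟨h2, by omega⟩
    rw [h1, h0]
  · rw [if_pos rfl]
    have h1 : (univ.filter fun j : Fin n => PEX_x n u true i j = true) =
        insert (⟨u, hu⟩ : Fin n) (univ.filter fun j : Fin n => (j : ℕ) < i) := by
      ext j
      rw [mem_insert, mem_filter, mem_filter]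
      unfold PEX_x
      by_cases h : (j : ℕ) = u
      · rw [if_pos h]
        constructor
        · intro _
          exact Or.inl (Fin.ext h)
        · intro _
          exact ⟨mem_univ _, rfl⟩
      · rw [if_neg h]
        constructor
        · rintro ⟨_, h2⟩
          exact Or.inr ⟨mem_univ _, (of_decide_eq_true h2).1⟩
        · rintro (h2 | ⟨_, h2⟩)
          · exact absurd (congrArg Fin.val h2) h
          · exact ⟨mem_univ _, decide_eq_true ⟨h2, by omega⟩⟩
    rw [h1, card_insert_of_notMem, h0]
    intro h2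
    have h3 := (mem_filter.1 h2).2
    have h4 : u < i := h3
    omega

theorem PEX_mono (n u : ℕ) (y : Bool) : Monotone (PEX_x n u y) := by
  intro i j hij k
  unfold PEX_x
  by_cases h0 : (k : ℕ) = u
  · rw [if_pos h0, if_pos h0]
  · rw [if_neg h0, if_neg h0]
    by_cases h : (k : ℕ) < i ∧ (k : ℕ) < u
    · rw [decide_eq_true h, decide_eq_true ⟨lt_of_lt_of_le h.1 hij, h.2⟩]
    · rw [decide_eq_false h]
      exact Bool.false_le _

theorem PEX_agree (n u : ℕ) (y : Bool) (i j : ℕ) : AgreeFrom u (PEX_x n u y i) (PEX_x n u y j) := by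
  intro k hk
  unfold PEX_x
  by_cases h0 : (k : ℕ) = u
  · rw [if_pos h0, if_pos h0]
  · rw [if_neg h0, if_neg h0, decide_eq_false (fun h => absurd h.2 (not_lt.2 hk)),
      decide_eq_false (fun h => absurd h.2 (not_lt.2 hk))]

theorem PEX_split (N : ℕ) (Q : ℕ → Prop) [DecidablePred Q] :
    ((range (N + N)).filter Q).card =
      ((range N).filter Q).card + ((range N).filter fun i => Q (N + i)).card := by
  rw [Finset.card_filter, Finset.card_filter, Finset.card_filter, Finset.sum_range_add]

theorem PEX_compl (N c : ℕ) (hc : c < 2) (v : ℕ → Bool) :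
    ((range N).filter fun i => (v i = true ↔ i % 2 = c)).card +
      ((range N).filter fun i => (v i = true ↔ i % 2 = 1 - c)).card = N := by
  have h8 : ((range N).filter fun i => (v i = true ↔ i % 2 = 1 - c)) =
      (range N).filter fun i => ¬(v i = true ↔ i % 2 = c) := by
    refine Finset.filter_congr fun i _ => ?_
    by_cases h : i % 2 = c
    · have h2 : ¬ (i % 2 = 1 - c) := by omega
      cases v i <;> simp [h] <;> omega
    · have h2 : i % 2 = 1 - c := by omega
      cases v i <;> simp [h2] <;> omega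
  rw [h8, Finset.card_filter_add_card_filter_not, card_range]

theorem PEX (h1 : DRM_stmt) (h2 : ALG_stmt) : PEX_stmt := by
  classical
  intro n u hu
  obtain ⟨N, hN⟩ : ∃ N : ℕ, N = u + 1 := ⟨_, rfl⟩
  have hNpos : 0 < N := by omega
  refine ⟨PEX_D (PEX_z n u N) (N + N), PEX_dist _ _ (by omega), ?_⟩
  intro s K C o hpat
  obtain ⟨v, hv⟩ : ∃ v : Bool → ℕ → Bool, v = fun y i => C.val (PEX_x n u y i) o := ⟨_, rfl⟩
  have hvi : ∀ y i, v y i = C.val (PEX_x n u y i) o := fun y i => by rw [hv]
  have hd : ∀ y, ((range (N - 1)).filter fun i => v y i = true ∧ v y (i + 1) = false).card ≤ K - 1 ∧ 1 ≤ K := by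
    intro y
    have h3 := h1 n s u K (N - 1) C o hpat (PEX_x n u y) (PEX_mono n u y) (PEX_agree n u y)
    have h4 : ((range (N - 1)).filter fun i => v y i = true ∧ v y (i + 1) = false).card + 1 ≤ K := by
      rw [hv]
      exact h3
    omega
  have hK : 1 ≤ K := (hd true).2
  obtain ⟨h3, h4⟩ := h2 N (K - 1) (v false) (hd false).1
  obtain ⟨h5, h6⟩ := h2 N (K - 1) (v true) (hd true).1
  have h7 := PEX_compl N 0 (by omega) (v false)
  have h8 := PEX_compl N 0 (by omega) (v true)
  rw [Nat.sub_zero] at h7 h8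
  obtain ⟨a0, ha0⟩ : ∃ a : ℕ, a = ((range N).filter fun i => (v false i = true ↔ i % 2 = 0)).card := ⟨_, rfl⟩
  obtain ⟨b0, hb0⟩ : ∃ a : ℕ, a = ((range N).filter fun i => (v false i = true ↔ i % 2 = 1)).card := ⟨_, rfl⟩
  obtain ⟨b1, hb1⟩ : ∃ a : ℕ, a = ((range N).filter fun i => (v true i = true ↔ i % 2 = 0)).card := ⟨_, rfl⟩
  obtain ⟨a1, ha1⟩ : ∃ a : ℕ, a = ((range N).filter fun i => (v true i = true ↔ i % 2 = 1)).card := ⟨_, rfl⟩
  rw [← ha0] at h3 h7
  rw [← hb0] at h4 h7
  rw [← hb1] at h5 h8
  rw [← ha1] at h6 h8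
  have h9 : agr (PEX_D (PEX_z n u N) (N + N)) (fun z => wt z % 2 = 0) (fun z => C.val z o) =
      ((a0 + a1 : ℕ) : ℝ) / ((N + N : ℕ) : ℝ) := by
    have h10 : ((range (N + N)).filter fun t => if t < N then (v false t = true ↔ t % 2 = 0) else
        (v true (t - N) = true ↔ (t - N) % 2 = 1)).card = a0 + a1 := by
      rw [PEX_split, ha0, ha1]
      have h11 : ((range N).filter fun t => if t < N then (v false t = true ↔ t % 2 = 0) else
          (v true (t - N) = true ↔ (t - N) % 2 = 1)) = (range N).filter fun i => (v false i = true ↔ i % 2 = 0) := by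
        refine Finset.filter_congr fun t ht => ?_
        rw [if_pos (mem_range.1 ht)]
      have h12 : ((range N).filter fun t => if N + t < N then (v false (N + t) = true ↔ (N + t) % 2 = 0) else
          (v true (N + t - N) = true ↔ (N + t - N) % 2 = 1)) =
          (range N).filter fun i => (v true i = true ↔ i % 2 = 1) := by
        refine Finset.filter_congr fun t _ => ?_
        rw [if_neg (by omega), Nat.add_sub_cancel_left]
      rw [h11, h12]
    rw [← h10]
    refine PEX_agr (PEX_z n u N) (N + N) _ _ _ fun t ht => ?_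
    show (C.val (PEX_z n u N t) o = true ↔ wt (PEX_z n u N t) % 2 = 0) ↔ _
    unfold PEX_z
    by_cases h : t < N
    · rw [if_pos h, if_pos h, PEX_wt n u hu false t (by omega), hvi, if_neg (by decide), add_zero]
    · rw [if_neg h, if_neg h, PEX_wt n u hu true (t - N) (by omega), hvi, if_pos rfl]
      have h11 : (t - N + 1) % 2 = 0 ↔ (t - N) % 2 = 1 := by omega
      rw [h11]
  have hNr : (0 : ℝ) < (N : ℝ) := by exact_mod_cast hNpos
  have h11 : ((a0 + a1 : ℕ) : ℝ) ≤ N + 2 * K - 1 := by
    have h12 : a0 + a1 + 1 ≤ N + 2 * K := by omega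
    have h13 : ((a0 + a1 + 1 : ℕ) : ℝ) ≤ ((N + 2 * K : ℕ) : ℝ) := by exact_mod_cast h12
    push_cast at h13 ⊢
    linarith
  have h12 : (N : ℝ) ≤ ((a0 + a1 : ℕ) : ℝ) + 2 * K - 1 := by
    have h13 : N + 1 ≤ a0 + a1 + 2 * K := by omega
    have h14 : ((N + 1 : ℕ) : ℝ) ≤ ((a0 + a1 + 2 * K : ℕ) : ℝ) := by exact_mod_cast h13
    push_cast at h14 ⊢
    linarith
  have h13 : (u : ℝ) + 1 = (N : ℝ) := by
    rw [hN]
    push_cast
    ring
  rw [h13]
  unfold adv
  rw [h9]
  obtain ⟨a, ha⟩ : ∃ a : ℝ, a = ((a0 + a1 : ℕ) : ℝ) := ⟨_, rfl⟩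
  rw [← ha] at h11 h12 ⊢
  have h14 : ((N + N : ℕ) : ℝ) = 2 * (N : ℝ) := by
    push_cast
    ring
  rw [h14, abs_le]
  constructor
  · rw [neg_le_iff_add_nonneg]
    have h15 : a / (2 * N) - 1 / 2 + (2 * K - 1) / (2 * N) = (a + 2 * K - 1 - N) / (2 * N) := by
      field_simp
      ring
    rw [h15]
    exact div_nonneg (by linarith) (by linarith)
  · rw [← sub_nonneg]
    have h15 : (2 * (K : ℝ) - 1) / (2 * N) - (a / (2 * N) - 1 / 2) = (N + 2 * K - 1 - a) / (2 * N) := by
      field_simp
      ring
    rw [h15]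
    exact div_nonneg (by linarith) (by linarith)

end Pool.Agent.ADV
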